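import Pool.Agent.Lib.UCT.Snd

/-!
# UCT: from derivations to paths, for one word with a unique derivation
-/

set_option autoImplicit false

namespace Pool.Agent.Lib.UCT

open Pool.Agent.Lib.UCX

/-- at most one derivation with this value -/
def Un (G : Grammar) (w : List (Item G)) (n : ℕ) : Prop := ∀ m m', Run G m w n → Run G m' w n → m = m'

private theorem flat_inj {β : Type} {k : ℕ} (hk : 1 ≤ k) {m m' : List β}
    (h : (List.replicate k m).flatten = (List.replicate k m').flatten) : m = m' := by
  have hl := congrArg List.length h
  rw [List.length_flatten, List.length_flatten, List.map_replicate, List.map_replicate,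
    List.sum_replicate, List.sum_replicate, smul_eq_mul, smul_eq_mul] at hl
  have hlen : m.length = m'.length := Nat.eq_of_mul_eq_mul_left (by omega) hl
  obtain ⟨j, rfl⟩ : ∃ j, k = j + 1 := ⟨k - 1, by omega⟩
  rw [List.replicate_succ, List.replicate_succ, List.flatten_cons, List.flatten_cons] at h
  exact (List.append_inj h hlen).1

/-- linear words -/
theorem lin_cases {V : Type} {α : List (Sym V)} (h : Lin α) :
    nvar α = 0 ∨ ∃ B, nvar α = 1 ∧ ∀ s ∈ α, s = Sym.zero ∨ s = Sym.var B := by
  have hz : ∀ k, nvar (List.replicate k (Sym.zero : Sym V)) = 0 := by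
    intro k
    induction k with
    | zero => rfl
    | succ k ih => exact ih
  rcases h with ⟨k, rfl⟩ | ⟨a, B, b, rfl⟩
  · exact Or.inl (hz k)
  · refine Or.inr ⟨B, ?_, ?_⟩
    · induction a with
      | zero =>
        show nvar (List.replicate b Sym.zero) + 1 = 1
        rw [hz]
      | succ a ih => exact ih
    · intro s hs
      rcases List.mem_append.1 hs with h | h
      · exact Or.inl (List.eq_of_mem_replicate h)
      · rcases List.mem_cons.1 h with h | h
        · exact Or.inr h
        · exact Or.inl (List.eq_of_mem_replicate h)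

/-- all copies have the same value, and this value has one derivation -/
private theorem one_copy {G : Grammar} (σ : List G.I) (C : G.V) (α : List (Sym G.V))
    (hα : ∀ s ∈ α, s = Sym.zero ∨ s = Sym.var C) (h0 : nvar α ≠ 0) {m : List (Prd G)} {n : ℕ}
    (h : Run G m (inst σ α) n) (hu : Un G (inst σ α) n) :
    ∃ m1 n1, m1.length ≤ m.length ∧ Run G m1 [some (C, σ)] n1 ∧ n = nvar α * n1 + nzero α ∧
      Un G [some (C, σ)] n1 := by
  obtain ⟨ms, hlen, hms, hm, hn⟩ := unfill σ C α hα h
  cases ms with
  | nil => exact absurd hlen.symm h0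
  | cons x ms' =>
    have hall : ∀ y ∈ x :: ms', y.2 = x.2 := by
      intro y hy
      rcases List.mem_cons.1 hy with rfl | hy'
      · rfl
      · obtain ⟨a, b, rfl⟩ := List.append_of_mem hy'
        have hx := hms x List.mem_cons_self
        have hyr := hms y hy
        have h1 := fill σ C α hα (y :: (a ++ x :: b)) (by
          rw [← hlen]
          simp only [List.length_cons, List.length_append]) (by
          intro z hz
          apply hms
          simp only [List.mem_cons, List.mem_append] at hz ⊢
          tauto)
        have hsum : ((y :: (a ++ x :: b)).map Prod.snd).sum = ((x :: (a ++ y :: b)).map Prod.snd).sum := by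
          simp only [List.map_cons, List.map_append, List.sum_cons, List.sum_append]
          omega
        rw [hsum, ← hn] at h1
        have h2 := hu _ _ h h1
        rw [hm] at h2
        simp only [List.map_cons, List.flatten_cons] at h2
        rcases List.append_eq_append_iff.1 h2 with ⟨t, ht, -⟩ | ⟨t, ht, -⟩
        · rw [ht] at hyr
          exact (run_prefix hx hyr).2
        · rw [ht] at hx
          exact (run_prefix hyr hx).2.symm
    have hsum : ((x :: ms').map Prod.snd).sum = nvar α * x.2 := by
      have h3 : (x :: ms').map Prod.snd = List.replicate (x :: ms').length x.2 := by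
        rw [List.eq_replicate_iff]
        refine ⟨by rw [List.length_map], ?_⟩
        intro b hb
        obtain ⟨y, hy, rfl⟩ := List.mem_map.1 hb
        exact hall y hy
      rw [h3, hlen, List.sum_replicate, smul_eq_mul]
    have hn' : n = nvar α * x.2 + nzero α := by rw [hn, hsum]
    refine ⟨x.1, x.2, ?_, hms x List.mem_cons_self, hn', ?_⟩
    · rw [hm, List.map_cons, List.flatten_cons, List.length_append]
      omega
    · have key : ∀ m1, Run G m1 [some (C, σ)] x.2 →
          Run G (List.replicate (nvar α) m1).flatten (inst σ α) n := by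
        intro m1 h1
        have h2 := fill σ C α hα (List.replicate (nvar α) (m1, x.2)) (by rw [List.length_replicate])
          (fun z hz => by
            have hz' := List.eq_of_mem_replicate hz
            rw [hz']
            exact h1)
        rw [List.map_replicate, List.map_replicate, List.sum_replicate, smul_eq_mul, ← hn'] at h2
        exact h2
      intro m1 m2 h1 h2
      exact flat_inj (by omega) (hu _ _ (key _ h1) (key _ h2))

private theorem no_copy {G : Grammar} (σ : List G.I) (C : G.V) (α : List (Sym G.V))
    (hα : ∀ s ∈ α, s = Sym.zero ∨ s = Sym.var C) (h0 : nvar α = 0) {m : List (Prd G)} {n : ℕ}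
    (h : Run G m (inst σ α) n) : n = nzero α := by
  obtain ⟨ms, hlen, hms, hm, hn⟩ := unfill σ C α hα h
  have hms0 : ms = [] := List.length_eq_zero_iff.1 (by rw [hlen, h0])
  rw [hn, hms0]
  simp

/-- the steps at one height -/
private theorem inner {G : Grammar} {P : Set G.V} (hk : OneKind G P)
    {l : List (Edge G)} {D : G.V} (h : EPath G P l (Sum.inl (D, false)))
    (hpop : ∀ B ∈ P, ∀ (f : G.I) (σ : List G.I) (α : List (Sym G.V)) (m : List (Prd G)) (n : ℕ),
      stk l = f :: σ → (B, f, α) ∈ G.pop → Un G (inst σ α) n → Run G m (inst σ α) n →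
      ∃ l', EPath G P l' (Sum.inr (D, B, false)) ∧ eval l' = n ∧ ecst l' = ecst l) :
    ∀ (k : ℕ) (B : G.V), B ∈ P → ∀ (m : List (Prd G)) (n : ℕ), m.length ≤ k → Un G [some (B, stk l)] n →
      Run G m [some (B, stk l)] n →
      ∃ l', EPath G P l' (Sum.inr (D, B, false)) ∧ eval l' = n ∧ ecst l' = ecst l := by
  intro k
  induction k with
  | zero =>
    intro B hB m n hm hc hr
    exfalso
    have hm' : m = [] := List.length_eq_zero_iff.1 (by omega)
    subst hm'
    generalize stk l = τ at hr
    cases hr
  | succ k ih =>
    intro B hB m n hm hc hr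
    generalize hτ : stk l = τ at hr hc
    cases hr with
    | @ctx m' _ _ _ α _ h1 h2 =>
      rw [List.append_nil] at h2
      rcases hk.ctx _ _ h1 with ⟨h3, -⟩ | ⟨-, C, hC, hα⟩
      · exact absurd hB h3
      · by_cases h0 : nvar α = 0
        · refine ⟨Edge.stopC D B α :: l, EPath.cons (Edge.stopC D B α) ⟨h1, h0⟩ h, ?_, Nat.zero_add _⟩
          show 1 * eval l + nzero α = n
          rw [no_copy τ C α hα h0 h2, eval_inl h _ rfl, mul_zero, zero_add]
        · have hun : Un G (inst τ α) n := by
            intro m1 m2 h5 h6
            have h7 := hc (Prd.ctx B α :: m1) (Prd.ctx B α :: m2)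
              (Run.ctx h1 (by rw [List.append_nil]; exact h5)) (Run.ctx h1 (by rw [List.append_nil]; exact h6))
            exact (List.cons.inj h7).2
          obtain ⟨m1, n1, hlen, hr1, hn, hu1⟩ := one_copy τ C α hα h0 h2 hun
          rw [← hτ] at hr1 hu1
          obtain ⟨l'', h5, h6, h7⟩ := ih C hC m1 n1 (by rw [List.length_cons] at hm; omega) hu1 hr1
          refine ⟨Edge.stepC D B α C :: l'', EPath.cons (Edge.stepC D B α C) ⟨h1, hB, by omega, hα⟩ h5, ?_,
            (Nat.zero_add _).trans h7⟩
          show nvar α * eval l'' + nzero α = n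
          rw [h6, hn]
    | push h1 h2 => exact absurd hB (hk.push _ _ _ h1)
    | @pop m' _ _ _ f α σ h1 h2 =>
      rw [List.append_nil] at h2
      have hun : Un G (inst σ α) n := by
        intro m1 m2 h5 h6
        have h7 := hc (Prd.pop B f α :: m1) (Prd.pop B f α :: m2)
          (Run.pop h1 (by rw [List.append_nil]; exact h5)) (Run.pop h1 (by rw [List.append_nil]; exact h6))
        exact (List.cons.inj h7).2
      exact hpop B hB f σ α m' n hτ h1 hun h2

private theorem comp2N {G : Grammar} {P : Set G.V} (hk : OneKind G P)
    {l : List (Edge G)} {D : G.V} {b : Bool} (h : EPath G P l (Sum.inl (D, b))) {B : G.V} (hB : B ∈ P)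
    {m : List (Prd G)} {n : ℕ} (hc : Un G [some (B, stk l)] n) (hr : Run G m [some (B, stk l)] n) :
    ∃ l', EPath G P l' (Sum.inr (D, B, b)) ∧ eval l' = n ∧ ecst l' = ecst l := by
  induction l generalizing D b B m n with
  | nil =>
    generalize hq : (Sum.inl (D, b) : St G) = q at h
    cases h with
    | nil =>
      obtain ⟨rfl, rfl⟩ := Prod.mk.inj (Sum.inl.inj hq)
      exact inner hk (l := []) EPath.nil (fun B hB f σ α m n h0 => by cases h0) m.length B hB m n
        le_rfl hc hr
  | cons e t ih =>
    generalize hq : (Sum.inl (D, b) : St G) = q at h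
    cases h with
    | cons _ hval hpath =>
      cases e with
      | unitY A β D' b' =>
        obtain ⟨rfl, rfl⟩ := Prod.mk.inj (Sum.inl.inj hq)
        obtain ⟨l'', h1, h2, h3⟩ := ih (D := A) (b := b') hpath hB hc hr
        refine ⟨Edge.unitX A β D B b' :: l'', EPath.cons (Edge.unitX A β D B b') hval h1, ?_, ?_⟩
        · show 1 * eval l'' + 0 = n
          rw [h2]
          omega
        · show nzero β + ecst l'' = nzero β + ecst t
          rw [h3]
      | unitX A β D' C b' => exact absurd hq (by simp [etgt])
      | pushY A D' f b' =>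
        obtain ⟨rfl, rfl⟩ := Prod.mk.inj (Sum.inl.inj hq)
        have hE : EPath G P (Edge.pushY A D f b' :: t) (Sum.inl (D, false)) :=
          EPath.cons (Edge.pushY A D f b') hval hpath
        refine inner hk hE ?_ m.length B hB m n le_rfl hc hr
        intro B' hB' f' σ α m' n' hσ h1 hc' h2
        obtain ⟨rfl, rfl⟩ := List.cons.inj (show f :: stk t = f' :: σ from hσ)
        obtain ⟨-, C, hC, hα⟩ := hk.pop _ _ _ h1
        by_cases h0 : nvar α = 0
        · refine ⟨Edge.stop A D f B' α b' :: t, EPath.cons (Edge.stop A D f B' α b') ⟨hval, h1, h0⟩ hpath, ?_, rfl⟩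
          show 1 * eval t + nzero α = n'
          rw [no_copy _ C α hα h0 h2, eval_inl hpath _ rfl, mul_zero, zero_add]
        · obtain ⟨m1, n1, hlen, hr1, hn, hu1⟩ := one_copy _ C α hα h0 h2 hc'
          obtain ⟨l'', h5, h6, h7⟩ := ih (D := A) (b := b') hpath hC hu1 hr1
          refine ⟨Edge.step A D f B' α C b' :: l'',
            EPath.cons (Edge.step A D f B' α C b') ⟨hval, h1, by omega, hα⟩ h5, ?_, ?_⟩
          · show nvar α * eval l'' + nzero α = n'
            rw [h6, hn]
          · show 0 + ecst l'' = 0 + ecst t
            rw [h7]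
      | stop A D' f C α b' => exact absurd hq (by simp [etgt])
      | step A D' f C α C' b' => exact absurd hq (by simp [etgt])
      | stopC A C α => exact absurd hq (by simp [etgt])
      | stepC A C α C' => exact absurd hq (by simp [etgt])

/-- a production without variables -/
private theorem stop_at {G : Grammar} {P : Set G.V} {B : G.V} {α : List (Sym G.V)} (h1 : (B, α) ∈ G.ctx)
    (h0 : nvar α = 0) {l : List (Edge G)} {D : G.V} {b : Bool} (h : EPath G P l (Sum.inl (D, b))) :
    ∃ l', EPath G P l' (Sum.inr (D, B, b)) ∧ eval l' = nzero α ∧ ecst l' = ecst l := by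
  induction l generalizing D b with
  | nil =>
    generalize hq : (Sum.inl (D, b) : St G) = q at h
    cases h with
    | nil =>
      obtain ⟨rfl, rfl⟩ := Prod.mk.inj (Sum.inl.inj hq)
      refine ⟨[Edge.stopC G.start B α], EPath.cons (Edge.stopC G.start B α) ⟨h1, h0⟩ EPath.nil, ?_, rfl⟩
      show 1 * 0 + nzero α = nzero α
      omega
  | cons e t ih =>
    generalize hq : (Sum.inl (D, b) : St G) = q at h
    cases h with
    | cons _ hval hpath =>
      cases e with
      | unitY A β D' b' =>
        obtain ⟨rfl, rfl⟩ := Prod.mk.inj (Sum.inl.inj hq)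
        obtain ⟨l'', h1, h2, h3⟩ := ih (D := A) (b := b') hpath
        refine ⟨Edge.unitX A β D B b' :: l'', EPath.cons (Edge.unitX A β D B b') hval h1, ?_, ?_⟩
        · show 1 * eval l'' + 0 = _
          rw [h2]
          omega
        · show nzero β + ecst l'' = nzero β + ecst t
          rw [h3]
      | unitX A β D' C b' => exact absurd hq (by simp [etgt])
      | pushY A D' f b' =>
        obtain ⟨rfl, rfl⟩ := Prod.mk.inj (Sum.inl.inj hq)
        have hE : EPath G P (Edge.pushY A D f b' :: t) (Sum.inl (D, false)) :=
          EPath.cons (Edge.pushY A D f b') hval hpath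
        refine ⟨Edge.stopC D B α :: Edge.pushY A D f b' :: t, EPath.cons (Edge.stopC D B α) ⟨h1, h0⟩ hE, ?_,
          Nat.zero_add _⟩
        show 1 * eval (Edge.pushY A D f b' :: t) + nzero α = nzero α
        rw [eval_inl hE _ rfl, mul_zero, zero_add]
      | stop A D' f C α b' => exact absurd hq (by simp [etgt])
      | step A D' f C α C' b' => exact absurd hq (by simp [etgt])
      | stopC A C α => exact absurd hq (by simp [etgt])
      | stepC A C α C' => exact absurd hq (by simp [etgt])

theorem compN {G : Grammar} {P : Set G.V} (hk : OneKind G P) {n0 : ℕ} (hu : Un G [some (G.start, [])] n0)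
    {l : List (Edge G)} {A : G.V} {b : Bool} (h : EPath G P l (Sum.inl (A, b))) {m : List (Prd G)} {n : ℕ}
    (hr : Run G m [some (A, stk l)] n) (hn : n + ecst l = n0) :
    ∃ B, ∃ l' b', EPath G P l' (Sum.inr (B, B, b')) ∧ eval l' + ecst l' = n0 := by
  induction m generalizing l A b n with
  | nil =>
    exfalso
    generalize stk l = τ at hr
    cases hr
  | cons p m' ih =>
    by_cases hA : A ∈ P
    · have hun : Un G [some (A, stk l)] n := by
        intro m1 m2 h5 h6
        have h7 := sound1 h m1 n h5
        have h8 := sound1 h m2 n h6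
        rw [hn] at h7 h8
        exact List.append_cancel_left (hu _ _ h7 h8)
      obtain ⟨l', h1, h2, h3⟩ := comp2N hk h hA hun hr
      exact ⟨A, l', b, h1, by rw [h2, h3, hn]⟩
    · generalize hτ : stk l = τ at hr
      cases hr with
      | @ctx _ _ _ _ α _ h1 h2 =>
        rw [List.append_nil] at h2
        rcases hk.ctx _ _ h1 with ⟨-, hα⟩ | ⟨h3, -⟩
        · rcases lin_cases hα with h0 | ⟨B, hv, hs⟩
          · obtain ⟨l', h4, h5, h6⟩ := stop_at h1 h0 h
            refine ⟨A, l', b, h4, ?_⟩
            rw [h5, h6, ← hn, no_copy τ A α (fun s hs => Or.inl (all_zero α h0 s hs)) h0 h2]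
          · obtain ⟨ms, hlen, hms, hm, hn'⟩ := unfill τ B α hs h2
            rw [hv] at hlen
            obtain ⟨⟨m1, n1⟩, rfl⟩ := List.length_eq_one_iff.1 hlen
            simp only [List.map_cons, List.map_nil, List.flatten_cons, List.flatten_nil, List.append_nil,
              List.sum_cons, List.sum_nil, add_zero] at hm hn'
            have hr1 : Run G m' [some (B, τ)] n1 := by
              rw [hm]
              exact hms (m1, n1) (List.mem_singleton.2 rfl)
            have h3 : EPath G P (Edge.unitY A α B b :: l) (Sum.inl (B, true)) :=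
              EPath.cons (Edge.unitY A α B b) ⟨h1, hA, hv, hs⟩ h
            refine ih h3 (n := n1) ?_ ?_
            · show Run G m' [some (B, stk l)] n1
              rw [hτ]
              exact hr1
            · show n1 + (nzero α + ecst l) = n0
              omega
        · exact absurd h3 hA
      | @push _ _ _ _ B f _ h1 h2 =>
        have h3 : EPath G P (Edge.pushY A B f b :: l) (Sum.inl (B, false)) :=
          EPath.cons (Edge.pushY A B f b) h1 h
        refine ih h3 (n := n) ?_ ?_
        · show Run G m' [some (B, f :: stk l)] n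
          rw [hτ]
          exact h2
        · show n + (0 + ecst l) = n0
          omega
      | pop h1 h2 => exact absurd (hk.pop _ _ _ h1).1 hA

end Pool.Agent.Lib.UCT
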