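import Pool.Agent.Lib.UCT.Defs

/-!
# UCT: finitely many edges
-/

set_option autoImplicit false

namespace Pool.Agent.Lib.UCT

open Pool.Agent.Lib.UCX

theorem finite_edges (G : Grammar) (P : Set G.V) : {e : Edge G | Valid G P e}.Finite := by
  have := G.finV
  have hV : (Set.univ : Set G.V).Finite := Set.finite_univ
  have hB : (Set.univ : Set Bool).Finite := Set.finite_univ
  have h1 : ((fun x : ((G.V × List (Sym G.V)) × G.V) × Bool => Edge.unitY x.1.1.1 x.1.1.2 x.1.2 x.2) ''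
      ((G.ctx ×ˢ Set.univ) ×ˢ Set.univ)).Finite := ((G.finCtx.prod hV).prod hB).image _
  have h2 : ((fun x : (((G.V × List (Sym G.V)) × G.V) × G.V) × Bool =>
      Edge.unitX x.1.1.1.1 x.1.1.1.2 x.1.1.2 x.1.2 x.2) ''
      (((G.ctx ×ˢ Set.univ) ×ˢ Set.univ) ×ˢ Set.univ)).Finite := (((G.finCtx.prod hV).prod hV).prod hB).image _
  have h3 : ((fun x : (G.V × G.V × G.I) × Bool => Edge.pushY x.1.1 x.1.2.1 x.1.2.2 x.2) ''
      (G.push ×ˢ Set.univ)).Finite := (G.finPush.prod hB).image _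
  have h4 : ((fun x : ((G.V × G.V × G.I) × (G.V × G.I × List (Sym G.V))) × Bool =>
      Edge.stop x.1.1.1 x.1.1.2.1 x.1.1.2.2 x.1.2.1 x.1.2.2.2 x.2) ''
      ((G.push ×ˢ G.pop) ×ˢ Set.univ)).Finite :=
    ((G.finPush.prod G.finPop).prod hB).image _
  have h5 : ((fun x : (((G.V × G.V × G.I) × (G.V × G.I × List (Sym G.V))) × G.V) × Bool =>
      Edge.step x.1.1.1.1 x.1.1.1.2.1 x.1.1.1.2.2 x.1.1.2.1 x.1.1.2.2.2 x.1.2 x.2) ''
      (((G.push ×ˢ G.pop) ×ˢ Set.univ) ×ˢ Set.univ)).Finite :=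
    (((G.finPush.prod G.finPop).prod hV).prod hB).image _
  have h6 : ((fun x : G.V × (G.V × List (Sym G.V)) => Edge.stopC x.1 x.2.1 x.2.2) ''
      (Set.univ ×ˢ G.ctx)).Finite := (hV.prod G.finCtx).image _
  have h7 : ((fun x : (G.V × (G.V × List (Sym G.V))) × G.V => Edge.stepC x.1.1 x.1.2.1 x.1.2.2 x.2) ''
      ((Set.univ ×ˢ G.ctx) ×ˢ Set.univ)).Finite := ((hV.prod G.finCtx).prod hV).image _
  refine (h1.union (h2.union (h3.union (h4.union (h5.union (h6.union h7)))))).subset ?_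
  intro e he
  cases e with
  | unitY A α B b => exact Or.inl ⟨(((A, α), B), b), ⟨⟨he.1, trivial⟩, trivial⟩, rfl⟩
  | unitX A α B C b => exact Or.inr (Or.inl ⟨((((A, α), B), C), b), ⟨⟨⟨he.1, trivial⟩, trivial⟩, trivial⟩, rfl⟩)
  | pushY A B f b => exact Or.inr (Or.inr (Or.inl ⟨((A, B, f), b), ⟨he, trivial⟩, rfl⟩))
  | stop A B f C α b =>
    exact Or.inr (Or.inr (Or.inr (Or.inl ⟨(((A, B, f), (C, f, α)), b), ⟨⟨he.1, he.2.1⟩, trivial⟩, rfl⟩)))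
  | step A B f C α C' b =>
    exact Or.inr (Or.inr (Or.inr (Or.inr (Or.inl ⟨((((A, B, f), (C, f, α)), C'), b),
      ⟨⟨⟨he.1, he.2.1⟩, trivial⟩, trivial⟩, rfl⟩))))
  | stopC A C α =>
    exact Or.inr (Or.inr (Or.inr (Or.inr (Or.inr (Or.inl ⟨(A, (C, α)), ⟨trivial, he.1⟩, rfl⟩)))))
  | stepC A C α C' =>
    exact Or.inr (Or.inr (Or.inr (Or.inr (Or.inr (Or.inr ⟨((A, (C, α)), C'), ⟨⟨trivial, he.1⟩, trivial⟩,
      rfl⟩)))))

end Pool.Agent.Lib.UCT
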