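import Pool.Agent.Lib.UCX.Exa
import Pool.Agent.Lib.UCY.Asm
import Pool.Agent.Lib.UCU.Defs
import Pool.Agent.Lib.UCT.Fin
import Pool.Agent.Lib.UCT.Inj
import Pool.Agent.Lib.UCT.Cmp

/-!
# UCT: the system of a grammar, accepted paths and derivations
-/

set_option autoImplicit false

namespace Pool.Agent.Lib.UCT

open Pool.Agent.Lib.UCX
open Pool.Agent.Lib.UCV (Acc)
open Pool.Agent.Lib.UCU (cst tot)

/-- the system of a grammar -/
def sysOf (G : Grammar) (P : Set G.V) : Sys where
  Q := St G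
  E := {e : Edge G // Valid G P e}
  finQ := by
    have := G.finV
    infer_instance
  finE := (finite_edges G P).to_subtype
  q0 := Sum.inl (G.start, false)
  src := fun e => esrc e.1
  tgt := fun e => etgt e.1
  b := fun e => eb e.1
  d := fun e => ed e.1
  fin := {q | ∃ B b, q = Sum.inr (B, B, b)}

/-- the emission -/
def emOf (G : Grammar) (P : Set G.V) : (sysOf G P).E → ℕ := fun e => eem e.1

theorem sys_b (G : Grammar) (P : Set G.V) (e : (sysOf G P).E) : 1 ≤ (sysOf G P).b e := by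
  obtain ⟨e, he⟩ := e
  show 1 ≤ eb e
  cases e with
  | unitY A α B b => exact le_rfl
  | unitX A α B C b => exact le_rfl
  | pushY A B f b => exact le_rfl
  | stop A B f C α b => exact le_rfl
  | step A B f C α C' b => exact he.2.2.1
  | stopC A C α => exact le_rfl
  | stepC A C α C' => exact he.2.2.1

private theorem val_eq (G : Grammar) (P : Set G.V) (w : List (sysOf G P).E) :
    val (sysOf G P) w = eval (w.map Subtype.val) := by
  induction w with
  | nil => rfl
  | cons e w ih =>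
    show (sysOf G P).b e * val (sysOf G P) w + (sysOf G P).d e = eb e.1 * eval (w.map Subtype.val) + ed e.1
    rw [ih]
    rfl

private theorem cst_eq (G : Grammar) (P : Set G.V) (w : List (sysOf G P).E) :
    cst (sysOf G P) (emOf G P) w = ecst (w.map Subtype.val) := by
  induction w with
  | nil => rfl
  | cons e w ih =>
    show eem e.1 + cst (sysOf G P) (emOf G P) w = eem e.1 + ecst (w.map Subtype.val)
    rw [ih]

private theorem tot_eq (G : Grammar) (P : Set G.V) (w : List (sysOf G P).E) :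
    tot (sysOf G P) (emOf G P) w = eval (w.map Subtype.val) + ecst (w.map Subtype.val) := by
  unfold tot
  rw [val_eq, cst_eq]

private theorem to_epath (G : Grammar) (P : Set G.V) {q' : (sysOf G P).Q} {w : List (sysOf G P).E}
    (h : Path (sysOf G P) (sysOf G P).q0 w q') : EPath G P (w.map Subtype.val) q' := by
  induction h with
  | nil => exact EPath.nil
  | cons e _ ih => exact EPath.cons e.1 e.2 ih

private theorem of_epath (G : Grammar) (P : Set G.V) {q : St G} {l : List (Edge G)}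
    (h : EPath G P l q) : ∃ w : List (sysOf G P).E, w.map Subtype.val = l ∧
      Path (sysOf G P) (sysOf G P).q0 w q := by
  induction h with
  | nil => exact ⟨[], rfl, Path.nil _⟩
  | cons e he _ ih =>
    obtain ⟨w, hw, hp⟩ := ih
    refine ⟨(⟨e, he⟩ : (sysOf G P).E) :: w, ?_, ?_⟩
    · show e :: w.map Subtype.val = _
      rw [hw]
    · exact Path.cons (S := sysOf G P) ⟨e, he⟩ hp

theorem acc_code (G : Grammar) (P : Set G.V) : ∃ γ : List (sysOf G P).E → List (Prd G),
    (∀ l ∈ Acc (sysOf G P), Run G (γ l) [some (G.start, [])] (tot (sysOf G P) (emOf G P) l)) ∧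
    ∀ l ∈ Acc (sysOf G P), ∀ l' ∈ Acc (sysOf G P), γ l = γ l' → l = l' := by
  refine ⟨fun l => pp (l.map Subtype.val) ++ rr (l.map Subtype.val), ?_, ?_⟩
  · rintro l ⟨q, ⟨B, b, rfl⟩, hl⟩
    have h1 := to_epath G P hl
    rw [tot_eq]
    exact sound1 h1 _ _ (sound2 h1 _ _ _ rfl)
  · rintro l ⟨q, ⟨B, b, rfl⟩, hl⟩ l' ⟨q', ⟨B', b', rfl⟩, hl'⟩ h
    have h1 := to_epath G P hl
    have h2 := to_epath G P hl'
    obtain ⟨h5, h6⟩ := split_enc h1 h2 h
    exact (List.map_injective_iff.2 Subtype.val_injective) (inj_enc h1 h2 h5 h6)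

theorem vals1 (G : Grammar) (P : Set G.V) (hk : OneKind G P) {n : ℕ}
    (hu : Un G [some (G.start, [])] n) (hn : n ∈ Lang G) :
    ∃ l ∈ Acc (sysOf G P), tot (sysOf G P) (emOf G P) l = n := by
  obtain ⟨m, hm⟩ := hn
  obtain ⟨B, l', b, hl', hn'⟩ := compN hk hu (l := []) EPath.nil hm rfl
  obtain ⟨w, rfl, hw⟩ := of_epath G P hl'
  exact ⟨w, ⟨_, ⟨B, b, rfl⟩, hw⟩, by rw [tot_eq, hn']⟩

theorem oneKind_G0 : ∃ P : Set G0.V, OneKind G0 P := by
  obtain ⟨P, hP⟩ := Pool.Agent.Lib.UCY.oneKind_G0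
  refine ⟨P, ⟨fun A α h => ?_, hP.push, hP.pop⟩⟩
  rcases hP.ctx A α h with ⟨h1, B, rfl⟩ | h1
  · exact Or.inl ⟨h1, Or.inr ⟨0, B, 0, rfl⟩⟩
  · exact Or.inr h1

end Pool.Agent.Lib.UCT
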