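import Pool.Agent.Lib.UCX.Gdef

/-!
# MP_aa59b8_lc: grammars with a linear first phase and a second phase with one kind of variable per production
-/

set_option autoImplicit false

namespace Pool.Agent.Lib.UCT

open Pool.Agent.Lib.UCX

/-- The words `0^k` and `0^a B 0^b` with one variable `B`. -/
def Lin {V : Type} (α : List (Sym V)) : Prop :=
  (∃ k, α = List.replicate k Sym.zero) ∨
    ∃ a B b, α = List.replicate a Sym.zero ++ Sym.var B :: List.replicate b Sym.zero

/-- For the set `P` of variables, outside `P` there are only productions `A → 0^k`, `A → 0^a B 0^b` and `A → B_f`; the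
variables in `P` have no productions `A → B_f`, and for each of their productions `A → α`, `A_f → α` there is some `B`
in `P` such that all symbols of `α` are `0` or `B`. -/
structure OneKind (G : Grammar) (P : Set G.V) : Prop where
  ctx : ∀ A α, (A, α) ∈ G.ctx → (A ∉ P ∧ Lin α) ∨ (A ∈ P ∧ ∃ B ∈ P, ∀ s ∈ α, s = Sym.zero ∨ s = Sym.var B)
  push : ∀ A B f, (A, B, f) ∈ G.push → A ∉ P
  pop : ∀ A f α, (A, f, α) ∈ G.pop → A ∈ P ∧ ∃ B ∈ P, ∀ s ∈ α, s = Sym.zero ∨ s = Sym.var B

end Pool.Agent.Lib.UCT
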