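import Pool.Agent.Lib.UCT.Main

/-!
# UCT: infinitely many ambiguous words, and the many derivations
-/

set_option autoImplicit false

namespace Pool.Agent.Lib.UCT

open Pool.Agent.Lib.UCX (Grammar Composite)
open Pool.Agent.Lib.UCW (Gen Amb Sparse)
open Pool.Agent.Lib.UCV (AmbDer)

theorem mainR (G : Grammar) (P : Set G.V) (hk : OneKind G P)
    (hL : Sparse (symmDiff (Gen G) {n | Composite n})) (N : ℕ) (s : ℝ) (hs : s < 1) :
    ¬ Summable fun x : AmbDer G N => ((x.1.1 : ℝ) + 1) ^ (-s) :=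
  fun hsum => mainQ G P hk hL N s hs hsum

theorem mainI (G : Grammar) (P : Set G.V) (hk : OneKind G P)
    (hL : Sparse (symmDiff (Gen G) {n | Composite n})) : (Amb G).Infinite := by
  by_contra h
  obtain ⟨N, hN⟩ := (Set.not_infinite.1 h).bddAbove
  have : IsEmpty (AmbDer G N) := ⟨fun x => absurd (hN x.2.2.1) (Nat.not_le.2 x.2.1)⟩
  exact mainR G P hk hL N 0 one_pos summable_empty

end Pool.Agent.Lib.UCT
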