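import Pool.Agent.Lib.UCX.Ins
import Pool.Agent.Lib.UCT.Gdef

/-!
# MP_aa59b8_lc, linear first phase: edges and paths
-/

set_option autoImplicit false

namespace Pool.Agent.Lib.UCT

open Pool.Agent.Lib.UCX

/-- The states: the variable of the first phase, in `inr` together with the variable of the second phase; the
flag tells whether a production `A → B` of the first phase was used since the last push. -/
abbrev St (G : Grammar) : Type := (G.V × Bool) ⊕ (G.V × G.V × Bool)

/-- The edges. -/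
inductive Edge (G : Grammar) : Type where
  | unitY : G.V → List (Sym G.V) → G.V → Bool → Edge G
  | unitX : G.V → List (Sym G.V) → G.V → G.V → Bool → Edge G
  | pushY : G.V → G.V → G.I → Bool → Edge G
  | stop : G.V → G.V → G.I → G.V → List (Sym G.V) → Bool → Edge G
  | step : G.V → G.V → G.I → G.V → List (Sym G.V) → G.V → Bool → Edge G
  | stopC : G.V → G.V → List (Sym G.V) → Edge G
  | stepC : G.V → G.V → List (Sym G.V) → G.V → Edge G

/-- the edges which belong to productions -/
def Valid (G : Grammar) (P : Set G.V) : Edge G → Prop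
  | Edge.unitY A α B _ => (A, α) ∈ G.ctx ∧ A ∉ P ∧ nvar α = 1 ∧ ∀ s ∈ α, s = Sym.zero ∨ s = Sym.var B
  | Edge.unitX A α B _ _ => (A, α) ∈ G.ctx ∧ A ∉ P ∧ nvar α = 1 ∧ ∀ s ∈ α, s = Sym.zero ∨ s = Sym.var B
  | Edge.pushY A B f _ => (A, B, f) ∈ G.push
  | Edge.stop A B f C α _ => (A, B, f) ∈ G.push ∧ (C, f, α) ∈ G.pop ∧ nvar α = 0
  | Edge.step A B f C α C' _ => (A, B, f) ∈ G.push ∧ (C, f, α) ∈ G.pop ∧ 1 ≤ nvar α ∧
      ∀ s ∈ α, s = Sym.zero ∨ s = Sym.var C'
  | Edge.stopC _ C α => (C, α) ∈ G.ctx ∧ nvar α = 0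
  | Edge.stepC _ C α C' => (C, α) ∈ G.ctx ∧ C ∈ P ∧ 1 ≤ nvar α ∧ ∀ s ∈ α, s = Sym.zero ∨ s = Sym.var C'

def esrc {G : Grammar} : Edge G → St G
  | Edge.unitY A _ _ b => Sum.inl (A, b)
  | Edge.unitX A _ _ C b => Sum.inr (A, C, b)
  | Edge.pushY A _ _ b => Sum.inl (A, b)
  | Edge.stop A _ _ _ _ b => Sum.inl (A, b)
  | Edge.step A _ _ _ _ C' b => Sum.inr (A, C', b)
  | Edge.stopC A _ _ => Sum.inl (A, false)
  | Edge.stepC A _ _ C' => Sum.inr (A, C', false)

def etgt {G : Grammar} : Edge G → St G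
  | Edge.unitY _ _ B _ => Sum.inl (B, true)
  | Edge.unitX _ _ B C _ => Sum.inr (B, C, true)
  | Edge.pushY _ B _ _ => Sum.inl (B, false)
  | Edge.stop _ B _ C _ _ => Sum.inr (B, C, false)
  | Edge.step _ B _ C _ _ _ => Sum.inr (B, C, false)
  | Edge.stopC A C _ => Sum.inr (A, C, false)
  | Edge.stepC A C _ _ => Sum.inr (A, C, false)

def eb {G : Grammar} : Edge G → ℕ
  | Edge.unitY _ _ _ _ => 1
  | Edge.unitX _ _ _ _ _ => 1
  | Edge.pushY _ _ _ _ => 1
  | Edge.stop _ _ _ _ _ _ => 1
  | Edge.step _ _ _ _ α _ _ => nvar α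
  | Edge.stopC _ _ _ => 1
  | Edge.stepC _ _ α _ => nvar α

def ed {G : Grammar} : Edge G → ℕ
  | Edge.unitY _ _ _ _ => 0
  | Edge.unitX _ _ _ _ _ => 0
  | Edge.pushY _ _ _ _ => 0
  | Edge.stop _ _ _ _ α _ => nzero α
  | Edge.step _ _ _ _ α _ _ => nzero α
  | Edge.stopC _ _ α => nzero α
  | Edge.stepC _ _ α _ => nzero α

/-- the zeros which the first phase produces at an edge -/
def eem {G : Grammar} : Edge G → ℕ
  | Edge.unitY _ α _ _ => nzero α
  | Edge.unitX _ α _ _ _ => nzero α
  | _ => 0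

/-- the productions of the first phase which belong to an edge -/
def elb {G : Grammar} : Edge G → List (Prd G)
  | Edge.unitY A α _ _ => [Prd.ctx A α]
  | Edge.unitX A α _ _ _ => [Prd.ctx A α]
  | Edge.pushY A B f _ => [Prd.push A B f]
  | Edge.stop A B f _ _ _ => [Prd.push A B f]
  | Edge.step A B f _ _ _ _ => [Prd.push A B f]
  | Edge.stopC _ _ _ => []
  | Edge.stepC _ _ _ _ => []

/-- the stack after the first phase -/
def stk {G : Grammar} : List (Edge G) → List G.I
  | [] => []
  | Edge.unitY _ _ _ _ :: l => stk l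
  | Edge.unitX _ _ _ _ _ :: l => stk l
  | Edge.pushY _ _ f _ :: l => f :: stk l
  | Edge.stop _ _ f _ _ _ :: l => f :: stk l
  | Edge.step _ _ f _ _ _ _ :: l => f :: stk l
  | Edge.stopC _ _ _ :: l => stk l
  | Edge.stepC _ _ _ _ :: l => stk l

/-- the productions of the first phase -/
def pp {G : Grammar} : List (Edge G) → List (Prd G)
  | [] => []
  | e :: l => pp l ++ elb e

/-- the productions of the second phase -/
def rr {G : Grammar} : List (Edge G) → List (Prd G)
  | [] => []
  | Edge.unitY _ _ _ _ :: l => rr l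
  | Edge.unitX _ _ _ _ _ :: l => rr l
  | Edge.pushY _ _ _ _ :: l => rr l
  | Edge.stop _ _ f C α _ :: _ => [Prd.pop C f α]
  | Edge.step _ _ f C α _ _ :: l => Prd.pop C f α :: (List.replicate (nvar α) (rr l)).flatten
  | Edge.stopC _ C α :: _ => [Prd.ctx C α]
  | Edge.stepC _ C α _ :: l => Prd.ctx C α :: (List.replicate (nvar α) (rr l)).flatten

/-- paths of edges which belong to productions -/
inductive EPath (G : Grammar) (P : Set G.V) : List (Edge G) → St G → Prop
  | nil : EPath G P [] (Sum.inl (G.start, false))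
  | cons {w : List (Edge G)} (e : Edge G) : Valid G P e → EPath G P w (esrc e) → EPath G P (e :: w) (etgt e)

/-- the value of a list of edges -/
def eval {G : Grammar} : List (Edge G) → ℕ
  | [] => 0
  | e :: l => eb e * eval l + ed e

/-- the zeros of the first phase -/
def ecst {G : Grammar} : List (Edge G) → ℕ
  | [] => 0
  | e :: l => eem e + ecst l

/-- the variable of the first phase -/
def fst' {G : Grammar} : St G → G.V
  | Sum.inl (A, _) => A
  | Sum.inr (A, _, _) => A

/-- the flag -/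
def flag {G : Grammar} : St G → Bool
  | Sum.inl (_, b) => b
  | Sum.inr (_, _, b) => b

end Pool.Agent.Lib.UCT
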